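import Mathlib
import Pool.Agent.H590.PL.Stm

/-!
# Planar case of MP_85210c_gt: normalisation and compactness (S_NO)
-/

set_option autoImplicit false

namespace Pool.Agent.H84.PL

open H590PL

variable {κ : Type} [Fintype κ]

theorem lagr (v : κ → P2) : ∑ i, ∑ j, dt (v i) (v j) ^ 2 =
    2 * ((∑ k, (v k).1 ^ 2) * (∑ k, (v k).2 ^ 2) - (∑ k, (v k).1 * (v k).2) ^ 2) := by
  have h : ∀ i j, dt (v i) (v j) ^ 2 = (v i).1 ^ 2 * (v j).2 ^ 2 + (v i).2 ^ 2 * (v j).1 ^ 2 -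
      2 * (((v i).1 * (v i).2) * ((v j).1 * (v j).2)) := by
    intro i j
    unfold dt
    ring
  simp only [h, Finset.sum_sub_distrib, Finset.sum_add_distrib, ← Finset.mul_sum,
    ← Finset.sum_mul]
  ring

theorem quad (v : κ → P2) (a b c d : ℝ) :
    ∑ k, (a * (v k).1 + b * (v k).2) * (c * (v k).1 + d * (v k).2) =
      a * c * (∑ k, (v k).1 ^ 2) + (a * d + b * c) * (∑ k, (v k).1 * (v k).2) +
        b * d * (∑ k, (v k).2 ^ 2) := by
  rw [Finset.mul_sum, Finset.mul_sum, Finset.mul_sum, ← Finset.sum_add_distrib,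
    ← Finset.sum_add_distrib]
  exact Finset.sum_congr rfl (fun k _ => by ring)

theorem quad2 (v : κ → P2) (a b : ℝ) :
    ∑ k, (a * (v k).1 + b * (v k).2) ^ 2 =
      a ^ 2 * (∑ k, (v k).1 ^ 2) + 2 * a * b * (∑ k, (v k).1 * (v k).2) +
        b ^ 2 * (∑ k, (v k).2 ^ 2) := by
  rw [Finset.mul_sum, Finset.mul_sum, Finset.mul_sum, ← Finset.sum_add_distrib,
    ← Finset.sum_add_distrib]
  exact Finset.sum_congr rfl (fun k _ => by ring)

theorem nrm_sum (v : κ → P2) (h : Nrm v) : ∑ i, ∑ j, dt (v i) (v j) ^ 2 = 2 := by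
  rw [lagr, h.1, h.2.1, h.2.2]
  norm_num

theorem nrm_spans (v : κ → P2) (h : Nrm v) : Spans v := by
  by_contra hs
  unfold Spans at hs
  push Not at hs
  have h1 := nrm_sum v h
  have h2 : ∑ i, ∑ j, dt (v i) (v j) ^ 2 = 0 :=
    Finset.sum_eq_zero (fun i _ => Finset.sum_eq_zero (fun j _ => by rw [hs i j]; norm_num))
  rw [h2] at h1
  norm_num at h1

theorem spans_pos (v : κ → P2) (h : Spans v) :
    0 < (∑ k, (v k).1 ^ 2) * (∑ k, (v k).2 ^ 2) - (∑ k, (v k).1 * (v k).2) ^ 2 := by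
  obtain ⟨i, j, hij⟩ := h
  have h1 : dt (v i) (v j) ^ 2 ≤ ∑ j, dt (v i) (v j) ^ 2 :=
    Finset.single_le_sum (f := fun j => dt (v i) (v j) ^ 2) (fun _ _ => sq_nonneg _)
      (Finset.mem_univ j)
  have h2 : ∑ j, dt (v i) (v j) ^ 2 ≤ ∑ i, ∑ j, dt (v i) (v j) ^ 2 :=
    Finset.single_le_sum (f := fun i => ∑ j, dt (v i) (v j) ^ 2)
      (fun _ _ => Finset.sum_nonneg (fun _ _ => sq_nonneg _)) (Finset.mem_univ i)
  have h3 : 0 < dt (v i) (v j) ^ 2 := by positivity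
  have h4 := lagr v
  linarith

theorem normalise (v : κ → P2) (h : Spans v) : ∃ a₁ a₂ a₃ a₄ : ℝ, a₁ * a₄ - a₂ * a₃ ≠ 0 ∧
    Nrm (fun k => (a₁ * (v k).1 + a₂ * (v k).2, a₃ * (v k).1 + a₄ * (v k).2)) := by
  have hD := spans_pos v h
  have hX0 : 0 ≤ ∑ k, (v k).1 ^ 2 := Finset.sum_nonneg (fun _ _ => sq_nonneg _)
  have hY0 : 0 ≤ ∑ k, (v k).2 ^ 2 := Finset.sum_nonneg (fun _ _ => sq_nonneg _)
  have q1 : ∀ a b : ℝ, ∑ k, (a * (v k).1 + b * (v k).2) ^ 2 =
      a ^ 2 * (∑ k, (v k).1 ^ 2) + 2 * a * b * (∑ k, (v k).1 * (v k).2) +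
        b ^ 2 * (∑ k, (v k).2 ^ 2) := quad2 v
  have q2 := quad v
  generalize (∑ k, (v k).1 ^ 2) = X at *
  generalize (∑ k, (v k).2 ^ 2) = Y at *
  generalize (∑ k, (v k).1 * (v k).2) = Z at *
  have hX : 0 < X := by
    rcases hX0.lt_or_eq with h1 | h1
    · exact h1
    · rw [← h1] at hD
      nlinarith [sq_nonneg Z]
  have hq : 0 < X / (X * Y - Z ^ 2) := div_pos hX hD
  have e1 : (Real.sqrt X)⁻¹ ^ 2 = X⁻¹ := by
    rw [inv_pow, Real.sq_sqrt hX.le]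
  have e2 : Real.sqrt (X / (X * Y - Z ^ 2)) ^ 2 = X / (X * Y - Z ^ 2) := Real.sq_sqrt hq.le
  have p1 : 0 < (Real.sqrt X)⁻¹ := inv_pos.mpr (Real.sqrt_pos.mpr hX)
  have p2 : 0 < Real.sqrt (X / (X * Y - Z ^ 2)) := Real.sqrt_pos.mpr hq
  generalize (Real.sqrt X)⁻¹ = a at *
  generalize Real.sqrt (X / (X * Y - Z ^ 2)) = d at *
  refine ⟨a, 0, -(Z * d / X), d, ?_, ?_, ?_, ?_⟩
  · rw [zero_mul, sub_zero]
    positivity
  · change ∑ k, (a * (v k).1 + 0 * (v k).2) ^ 2 = 1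
    rw [q1, e1]
    field_simp
    ring
  · change ∑ k, (-(Z * d / X) * (v k).1 + d * (v k).2) ^ 2 = 1
    rw [q1]
    have e3 : (-(Z * d / X)) ^ 2 * X + 2 * (-(Z * d / X)) * d * Z + d ^ 2 * Y =
        d ^ 2 * ((X * Y - Z ^ 2) / X) := by
      field_simp
      ring
    rw [e3, e2]
    field_simp
  · change ∑ k, (a * (v k).1 + 0 * (v k).2) * (-(Z * d / X) * (v k).1 + d * (v k).2) = 0
    rw [q2]
    field_simp
    ring

theorem nrm_compact : IsCompact {v : κ → P2 | Nrm v} := by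
  apply Metric.isCompact_of_isClosed_isBounded
  · have c1 : Continuous (fun v : κ → P2 => ∑ k, (v k).1 ^ 2) := by fun_prop
    have c2 : Continuous (fun v : κ → P2 => ∑ k, (v k).2 ^ 2) := by fun_prop
    have c3 : Continuous (fun v : κ → P2 => ∑ k, (v k).1 * (v k).2) := by fun_prop
    exact (isClosed_eq c1 continuous_const).inter
      ((isClosed_eq c2 continuous_const).inter (isClosed_eq c3 continuous_const))
  · refine (Metric.isBounded_closedBall (x := (0 : κ → P2)) (r := 1)).subset ?_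
    intro v hv
    rw [mem_closedBall_zero_iff, pi_norm_le_iff_of_nonneg zero_le_one]
    intro k
    have h1 : (v k).1 ^ 2 ≤ 1 := by
      rw [← hv.1]
      exact Finset.single_le_sum (f := fun k => (v k).1 ^ 2) (fun _ _ => sq_nonneg _)
        (Finset.mem_univ k)
    have h2 : (v k).2 ^ 2 ≤ 1 := by
      rw [← hv.2.1]
      exact Finset.single_le_sum (f := fun k => (v k).2 ^ 2) (fun _ _ => sq_nonneg _)
        (Finset.mem_univ k)
    rw [Prod.norm_def, Real.norm_eq_abs, Real.norm_eq_abs]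
    exact max_le ((sq_le_one_iff_abs_le_one _).mp h1) ((sq_le_one_iff_abs_le_one _).mp h2)

theorem NO : S_NO := by
  intro κ _
  exact ⟨normalise, nrm_compact, nrm_spans, nrm_sum⟩

end Pool.Agent.H84.PL
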